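import Pool.Agent.H32.CH.Targets

/-!
# A maximal matching whose free vertices have different colours
-/

set_option autoImplicit false
set_option linter.unusedSectionVars false

namespace Pool.Agent.H77.CH.MAT

open Pool.Agent.H32.CH
open Finset
open scoped Classical

theorem pf_MAT (h1 : T_CX) (h2 : T_CU) (h3 : T_EN) (h4 : T_DC) : T_MAT := by
  intro V K _ _ D N κ hdeg hκ
  have hen : ∀ C : {C : Finset V // Comp D N C}, ∃ f : ℕ → V, Enum D C.1 C.1.card f := by
    intro C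
    refine h3 V D C.1 C.2.2.1 (fun x hx => ?_)
    rw [← h4 V D N C.1 x C.2 hx]
    exact hdeg x (C.2.1 hx)
  choose fn hfn using hen
  have hmem : ∀ (C : {C : Finset V // Comp D N C}) (i : ℕ), i < C.1.card → fn C i ∈ C.1 := by
    intro C i hi
    have h := (hfn C).2.1
    have h' : fn C i ∈ (range C.1.card).image (fn C) := mem_image_of_mem _ (mem_range.2 hi)
    rw [h]
    exact h'
  have hex : ∀ (C : {C : Finset V // Comp D N C}) (x : V), x ∈ C.1 →
      ∃ j < C.1.card, fn C j = x := by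
    intro C x hx
    have h := (hfn C).2.1
    rw [h] at hx
    obtain ⟨j, hj, e⟩ := mem_image.1 hx
    exact ⟨j, mem_range.1 hj, e⟩
  have hcu : ∀ (C C' : {C : Finset V // Comp D N C}) (x : V), x ∈ C.1 → x ∈ C'.1 → C = C' :=
    fun C C' x hx hx' => Subtype.ext (h2 V D N C.1 C'.1 x C.2 C'.2 hx hx')
  -- the candidates
  let Os := {C : {C : Finset V // Comp D N C} // C.1.card % 2 = 1 ∧ 3 ≤ C.1.card}
  let cand : Os → Finset V := fun C => {fn C.1 0, fn C.1 (C.1.1.card - 1)}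
  have hcsub : ∀ C : Os, cand C ⊆ C.1.1 := by
    intro C x hx
    have h5 := C.2.2
    rcases mem_insert.1 hx with h | h
    · rw [h]; exact hmem C.1 0 (by omega)
    · rw [mem_singleton.1 h]; exact hmem C.1 _ (by omega)
  have hccard : ∀ C : Os, (cand C).card = 2 := by
    intro C
    apply card_pair
    intro h
    have h5 := C.2.2
    have := (hfn C.1).1 0 (by omega) (C.1.1.card - 1) (by omega) h
    omega
  obtain ⟨c, hcinj, hc⟩ := (Finset.all_card_le_biUnion_card_iff_exists_injective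
    (fun C : Os => (cand C).image κ)).1 (by
      intro J
      rw [← Finset.biUnion_image]
      have e1 : (J.biUnion cand).card = 2 * J.card := by
        rw [card_biUnion]
        · rw [sum_congr rfl (fun C _ => hccard C)]
          simp [mul_comm]
        · intro C _ C' _ hne
          refine disjoint_left.2 ?_
          intro x hx hx'
          exact hne (Subtype.ext (hcu C.1 C'.1 x (hcsub C hx) (hcsub C' hx')))
      have e2 : (J.biUnion cand).card ≤ 2 * ((J.biUnion cand).image κ).card := by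
        apply card_le_mul_card_image
        intro a _
        refine le_trans (card_le_card ?_) (hκ a)
        intro x hx
        obtain ⟨hx1, hx2⟩ := mem_filter.1 hx
        obtain ⟨C, _, hC⟩ := mem_biUnion.1 hx1
        exact mem_filter.2 ⟨C.1.2.1 (hcsub C hC), hx2⟩
      omega)
  have hv : ∀ C : Os, ∃ v ∈ cand C, κ v = c C := fun C => by
    obtain ⟨v, hv, e⟩ := mem_image.1 (hc C)
    exact ⟨v, hv, e⟩
  choose vv hvv hvc using hv
  -- parity
  let off : {C : Finset V // Comp D N C} → ℕ := fun C =>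
    if h : C.1.card % 2 = 1 ∧ 3 ≤ C.1.card then (if vv ⟨C, h⟩ = fn C 0 then 1 else 0) else 0
  have hoff : ∀ C, off C = 0 ∨ (off C = 1 ∧ C.1.card % 2 = 1 ∧ 3 ≤ C.1.card) := by
    intro C
    simp only [off]
    by_cases h : C.1.card % 2 = 1 ∧ 3 ≤ C.1.card
    · rw [dif_pos h]
      split_ifs
      · exact Or.inr ⟨rfl, h⟩
      · exact Or.inl rfl
    · rw [dif_neg h]
      exact Or.inl rfl
  let R : V → V → Prop := fun x y => ∃ (C : {C : Finset V // Comp D N C}) (i : ℕ),
    i + 1 < C.1.card ∧ i % 2 = off C ∧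
      ((x = fn C i ∧ y = fn C (i + 1)) ∨ (y = fn C i ∧ x = fn C (i + 1)))
  have hRD : ∀ x y, R x y → D.Adj x y := by
    rintro x y ⟨C, i, hi, -, ⟨h, h'⟩ | ⟨h, h'⟩⟩
    · rw [h, h']; exact (hfn C).2.2.1 i hi
    · rw [h, h']; exact ((hfn C).2.2.1 i hi).symm
  let M : SimpleGraph V :=
    { Adj := R
      symm := ⟨by
        rintro x y ⟨C, i, hi, ho, h⟩
        exact ⟨C, i, hi, ho, h.symm⟩⟩
      loopless := ⟨fun x h => D.loopless.irrefl x (hRD x x h)⟩ }
  -- the covered vertices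
  have hcov : ∀ (C : {C : Finset V // Comp D N C}) (j : ℕ), j < C.1.card →
      (∀ z, ¬ M.Adj (fn C j) z) →
      (off C = 0 ∧ C.1.card % 2 = 1 ∧ j = C.1.card - 1) ∨ (off C = 1 ∧ j = 0) := by
    intro C j hj hz
    have q1 : ¬ (j % 2 = off C ∧ j + 1 < C.1.card) := by
      rintro ⟨a, b⟩
      exact hz (fn C (j + 1)) ⟨C, j, b, a, Or.inl ⟨rfl, rfl⟩⟩
    have q2 : ¬ (1 ≤ j ∧ (j - 1) % 2 = off C) := by
      rintro ⟨a, b⟩
      refine hz (fn C (j - 1)) ⟨C, j - 1, by omega, b, Or.inr ⟨rfl, ?_⟩⟩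
      rw [Nat.sub_add_cancel a]
    rcases hoff C with h | ⟨h, h', h''⟩
    · left
      rw [h] at q1 q2 ⊢
      refine ⟨rfl, ?_, ?_⟩ <;> omega
    · right
      rw [h] at q1 q2 ⊢
      exact ⟨rfl, by omega⟩
  refine ⟨M, hRD, ?_, ?_, ?_, ?_⟩
  · rintro x y ⟨C, i, hi, -, ⟨h, h'⟩ | ⟨h, h'⟩⟩
    · rw [h, h']
      exact ⟨C.2.1 (hmem C i (by omega)), C.2.1 (hmem C _ hi)⟩
    · rw [h, h']
      exact ⟨C.2.1 (hmem C _ hi), C.2.1 (hmem C i (by omega))⟩
  · rintro x y z ⟨C, i, hi, ho, hx⟩ ⟨C', i', hi', ho', hx'⟩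
    have hxC : x ∈ C.1 := by
      rcases hx with ⟨h, -⟩ | ⟨-, h⟩
      · rw [h]; exact hmem C i (by omega)
      · rw [h]; exact hmem C _ hi
    have hxC' : x ∈ C'.1 := by
      rcases hx' with ⟨h, -⟩ | ⟨-, h⟩
      · rw [h]; exact hmem C' i' (by omega)
      · rw [h]; exact hmem C' _ hi'
    obtain rfl := hcu C C' x hxC hxC'
    have hinj := (hfn C).1
    rcases hx with ⟨h, h'⟩ | ⟨h', h⟩ <;> rcases hx' with ⟨k, k'⟩ | ⟨k', k⟩
    · have := hinj i (by omega) i' (by omega) (h.symm.trans k)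
      rw [h', k', this]
    · have := hinj i (by omega) (i' + 1) (by omega) (h.symm.trans k)
      omega
    · have := hinj (i + 1) (by omega) i' (by omega) (h.symm.trans k)
      omega
    · have := hinj (i + 1) (by omega) (i' + 1) (by omega) (h.symm.trans k)
      rw [h', k']
      congr 1
      omega
  · intro x hx y hy hxy
    by_contra hcon
    push Not at hcon
    obtain ⟨hcx, hcy⟩ := hcon
    obtain ⟨C, hC, hxC⟩ := h1 V D N x hx
    have hyC := hC.2.2 x hxC y hy hxy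
    obtain ⟨j, hj, rfl⟩ := hex ⟨C, hC⟩ x hxC
    obtain ⟨k, hk, rfl⟩ := hex ⟨C, hC⟩ y hyC
    have e1 := hcov ⟨C, hC⟩ j hj hcx
    have e2 := hcov ⟨C, hC⟩ k hk hcy
    have : j = k := by
      rcases e1 with ⟨a, b, c1⟩ | ⟨a, b⟩ <;> rcases e2 with ⟨a', b', c'⟩ | ⟨a', b'⟩
      · rw [c1, c']
      · rw [a] at a'; omega
      · rw [a] at a'; omega
      · rw [b, b']
    rw [this] at hxy
    exact D.loopless.irrefl _ hxy
  · -- the free vertices
    have hfree : ∀ x ∈ N, (∀ z, ¬ M.Adj x z) → dg D N x ≠ 0 → ∃ C : Os, x = vv C := by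
      intro x hx hfx hd
      obtain ⟨C, hC, hxC⟩ := h1 V D N x hx
      obtain ⟨y, hy, hxy⟩ := dg_pos.1 (Nat.pos_of_ne_zero hd)
      have hyC := hC.2.2 x hxC y hy hxy
      obtain ⟨j, hj, hj'⟩ := hex ⟨C, hC⟩ x hxC
      obtain ⟨k, hk, hk'⟩ := hex ⟨C, hC⟩ y hyC
      have hjk : j ≠ k := by
        rintro rfl
        rw [← hj', ← hk'] at hxy
        exact D.loopless.irrefl _ hxy
      have hj2 : j < C.card := hj
      have hk2 : k < C.card := hk
      have e1 := hcov ⟨C, hC⟩ j hj (by rw [hj']; exact hfx)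
      have hodd : C.card % 2 = 1 := by
        rcases e1 with ⟨a, b, c1⟩ | ⟨a, b⟩
        · exact b
        · rcases hoff ⟨C, hC⟩ with h | ⟨h, h', h''⟩
          · rw [a] at h; omega
          · exact h'
      have hO : C.card % 2 = 1 ∧ 3 ≤ C.card := ⟨hodd, by omega⟩
      refine ⟨⟨⟨C, hC⟩, hO⟩, ?_⟩
      have eoff : off ⟨C, hC⟩ = if vv ⟨⟨C, hC⟩, hO⟩ = fn ⟨C, hC⟩ 0 then 1 else 0 := by
        simp only [off]
        rw [dif_pos hO]
      have hcd := hvv ⟨⟨C, hC⟩, hO⟩
      rcases e1 with ⟨a, b, c1⟩ | ⟨a, b⟩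
      · rw [eoff] at a
        have hne : vv ⟨⟨C, hC⟩, hO⟩ ≠ fn ⟨C, hC⟩ 0 := by
          intro h
          rw [if_pos h] at a
          omega
        rcases mem_insert.1 hcd with h | h
        · exact absurd h hne
        · rw [mem_singleton.1 h, ← hj', c1]
      · rw [eoff] at a
        have heq : vv ⟨⟨C, hC⟩, hO⟩ = fn ⟨C, hC⟩ 0 := by
          by_contra h
          rw [if_neg h] at a
          omega
        rw [heq, ← hj', b]
    intro x hx y hy hfx hfy hdx hdy hk
    obtain ⟨C, rfl⟩ := hfree x hx hfx hdx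
    obtain ⟨C', rfl⟩ := hfree y hy hfy hdy
    rw [hvc, hvc] at hk
    rw [hcinj hk]

end Pool.Agent.H77.CH.MAT
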